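import Pool.Agent.K3h83.PI.Sub

/-!
# McKay bijections with degrees congruent up to sign modulo `p` for groups without certain sections

Let `p` be a prime. We call a group `Y` an obstruction if it has a unique minimal normal subgroup `M`, `M` is
not abelian, the Sylow `p`-subgroups `Q` of `Y` are not cyclic, and `Y = M N_Y(Q)`. We call a finite group `G`
unobstructed if no quotient of a subgroup of index prime to `p` of `G` is an obstruction. We prove: if
`G` is unobstructed, then for every Sylow `p`-subgroup `P` of `G` there is a bijection from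
`Irr_{p'}(G)` onto `Irr_{p'}(N_G(P))` with degrees congruent up to sign modulo `p` (question Q1, the
Isaacs-Navarro form of the McKay conjecture), and the relative form holds over every `P`-invariant
irreducible character of a normal subgroup.

`G` is unobstructed if its Sylow `p`-subgroups are cyclic, or if it has normal subgroups `M_i` whose
intersection is solvable and such that all quotients `G / M_i` are unobstructed; for instance if `G` is
solvable, or if `G` modulo its solvable radical is a direct product of groups with cyclic Sylow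
`p`-subgroups (then `P` can have any rank).

Proof (outline). The class of these groups is closed under subgroups of index prime to `p`, quotients
and central extensions (an obstruction has trivial center), so by the reduction theorem
(`SolvableRadicalReduction`) it is enough
to consider groups `G` with `p ∤ |Z(G)|` in which every solvable normal subgroup is central, `G / Z(G)` has a
unique minimal normal subgroup and `G = L N_G(P)` for all noncentral normal subgroups `L`; then `P` is
cyclic, as `G / Z(G)` is not an obstruction. Let `Q` be the subgroup of order `p` of `P` and `B = N_G(Q)`; by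
induction Q1 holds for `B`, which contains `N_G(P)`, and we compare `G` and `B` (an elementary route to the part
of Dade's theory of blocks with cyclic defect groups needed here).
* `C_B(Q) = H P` with `H` normal of order prime to `p`. By Clifford theory `Irr(B)` is a disjoint union of
  families `ξ_1, …, ξ_e, ψ_1, …, ψ_f` such that `ψ_i = ∑ ξ_j` on the `p`-regular elements and
  `∑ ψ_i + ξ_j = 0` on the `p`-singular elements.
* `B` controls the fusion of `p`-singular elements, so induction is an isometry on the class functions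
  vanishing on `p`-regular elements. The differences `ψ_i - ∑ ξ_j` give, for each family, `f` integer vectors
  indexed by `Irr(G)` with the Gram matrix `e + δ_ij`; hence they have at most `e + f` nonzero coordinates,
  and if there are exactly `e + f` then up to signs these are as for `B`.
* The characters of `G` at which all these vectors vanish have degree divisible by `|P|`. The number of the
  others is at least the number of the irreducible characters of `B`: in characteristic `p` each simple
  `B`-module `W` has a homomorphism to a simple `G`-module `V` that is not a trace, `V` determines `W` (Clifford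
  theory modulo `p`, and the case of a normal cyclic Sylow subgroup), and the modules from characters of
  degree divisible by `|P|` do not occur.
So all inequalities are equalities, and there is a bijection `χ ↦ χ'` onto `Irr(B)` with
`χ = ± χ'` on the `p`-singular elements of `B`, hence `χ(1) = ± χ'(1)` modulo `p`.
-/

set_option autoImplicit false
set_option linter.unusedSectionVars false

noncomputable section

namespace Pool.Agent.Results.MP_5ecade_al.CyclicMonolithicSections

/-- `χ` is the character of an irreducible complex representation of `G`. -/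
def IsIrr {G : Type} [Group G] (χ : G → ℂ) : Prop :=
  ∃ (V : Type) (_ : AddCommGroup V) (_ : Module ℂ V) (_ : FiniteDimensional ℂ V)
    (ρ : Representation ℂ G V), ρ.IsIrreducible ∧ χ = ρ.character

/-- The set `Irr_{p'}(G)` of the irreducible characters of `G` of degree prime to `p`. -/
def IrrP (p : ℕ) (G : Type) [Group G] : Type :=
  {χ : G → ℂ // IsIrr χ ∧ ∃ d : ℕ, χ 1 = (d : ℂ) ∧ ¬ p ∣ d}

/-- The normalizer of a Sylow subgroup. -/
abbrev N {p : ℕ} {G : Type} [Group G] (P : Sylow p G) : Subgroup G :=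
  Subgroup.normalizer ((P : Subgroup G) : Set G)

/-- The bijection of Q1 for `G` and `P`: from `Irr_{p'}(G)` onto `Irr_{p'}(N_G(P))` with degrees congruent
up to sign modulo `p`. -/
def HasBijection {p : ℕ} {G : Type} [Group G] (P : Sylow p G) : Prop :=
  ∃ e : IrrP p G ≃ IrrP p (N P), ∀ (χ : IrrP p G) (m n : ℕ), χ.1 1 = (m : ℂ) → (e χ).1 1 = (n : ℂ) →
    (m : ℤ) ≡ n [ZMOD p] ∨ (m : ℤ) ≡ -n [ZMOD p]

/-- The irreducible characters of `X` of degree prime to `p` whose restriction to the group `L` (embedded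
in `X` by `j`) contains `θ`, that is, which are not orthogonal to `θ` on `L`. -/
def IrrOver (p : ℕ) {L X : Type} [Group L] [Group X] (j : L →* X) (θ : L → ℂ) : Type :=
  {χ : X → ℂ // IsIrr χ ∧ (∃ d : ℕ, χ 1 = (d : ℂ) ∧ ¬ p ∣ d) ∧ ∑ᶠ l : L, χ (j l) * θ l⁻¹ ≠ 0}

/-- The relative form: a bijection from the irreducible characters of `G` of degree prime to `p`
over `θ` onto those of `L N_G(P)`, with degrees congruent up to sign modulo `p`. -/
def HasRelativeBijection {p : ℕ} {G : Type} [Group G] (P : Sylow p G) (L : Subgroup G)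
    (θ : L → ℂ) : Prop :=
  ∃ e : IrrOver p L.subtype θ ≃ IrrOver p (Subgroup.inclusion (le_sup_left : L ≤ L ⊔ N P)) θ,
    ∀ (χ : IrrOver p L.subtype θ) (m n : ℕ), χ.1 1 = (m : ℂ) → (e χ).1 1 = (n : ℂ) →
      (m : ℤ) ≡ n [ZMOD p] ∨ (m : ℤ) ≡ -n [ZMOD p]

/-- `θ` is invariant under conjugation with the elements of `P`. -/
def Invariant {p : ℕ} {G : Type} [Group G] (P : Sylow p G) (L : Subgroup G) (θ : L → ℂ) : Prop :=
  ∀ x ∈ P, ∀ l l' : L, x * l * x⁻¹ = l' → θ l' = θ l

/-- `Y` is an obstruction: it has a unique minimal normal subgroup `M`, `M` is not abelian, a Sylow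
`p`-subgroup `Q` of `Y` is not cyclic, and `Y = M N_Y(Q)`. -/
def Obstruction (p : ℕ) (Y : Type) [Group Y] : Prop :=
  ∃ M : Subgroup Y, M.Normal ∧ (∀ L : Subgroup Y, L.Normal → L ≠ ⊥ → M ≤ L) ∧
    (∃ a ∈ M, ∃ b ∈ M, a * b ≠ b * a) ∧ ∃ Q : Sylow p Y, ¬ IsCyclic Q ∧ M ⊔ N Q = ⊤

/-- `G` is unobstructed: no homomorphic image `Y` of a subgroup `H` of `G` of index prime to `p` is an
obstruction. -/
def Unobstructed (p : ℕ) (G : Type) [Group G] : Prop :=
  ∀ (Y : Type) [Group Y] (H : Subgroup G) (f : H →* Y), ¬ p ∣ H.index → Function.Surjective f →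
    ¬ Obstruction p Y

section

open Pool.Agent.K3h3.MK Pool.Agent.K3h3.KB Pool.Agent.K3h83.IN

variable {p : ℕ} [hp : Fact p.Prime] {G : Type} [Group G] [Finite G]

theorem deg_iff {χ : G → ℂ} (h : IsIrr χ) {d : ℕ} : χ 1 = (d : ℂ) ↔ d = ndeg χ := by
  constructor
  · intro h1
    exact (ndeg_eq h1.symm).symm
  · rintro rfl
    exact (ndeg_cast h).symm

theorem cong_iff (m n : ℕ) : ((m : ℤ) ≡ n [ZMOD p] ∨ (m : ℤ) ≡ -n [ZMOD p]) ↔
    ((m : ZMod p)) ^ 2 = (n : ZMod p) ^ 2 := by
  rw [sq_eq_sq_iff_eq_or_eq_neg, ← ZMod.intCast_eq_intCast_iff, ← ZMod.intCast_eq_intCast_iff]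
  simp

theorem deg_prime_iff {χ : G → ℂ} (h1 : IsIrr χ) : (∃ d : ℕ, χ 1 = (d : ℂ) ∧ ¬ p ∣ d) ↔
    (ndeg χ : ZMod p) ≠ 0 := by
  constructor
  · rintro ⟨d, h2, h3⟩
    rw [deg_iff h1] at h2
    rw [← h2]
    exact fun h => h3 ((ZMod.natCast_eq_zero_iff _ _).mp h)
  · intro h2
    exact ⟨ndeg χ, (deg_iff h1).mpr rfl, fun h => h2 ((ZMod.natCast_eq_zero_iff _ _).mpr h)⟩

/-- the two descriptions of `Irr_{p'}(G)` -/
def eqv (p : ℕ) [Fact p.Prime] (G : Type) [Group G] [Finite G] : IrrP p G ≃ X p G :=
  Equiv.subtypeEquivRight fun χ => by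
    constructor
    · rintro ⟨h1, h2⟩
      exact ⟨h1, (deg_prime_iff h1).mp h2⟩
    · rintro ⟨h1, h2⟩
      exact ⟨h1, (deg_prime_iff h1).mpr h2⟩

theorem kap_eq_iff {H : Type} [Group H] [Finite H] (χ : X p G) (ψ : X p H) :
    kap p ψ = kap p χ ↔ ((ndeg χ.1 : ZMod p)) ^ 2 = (ndeg ψ.1 : ZMod p) ^ 2 := by
  unfold kap
  rw [Units.ext_iff]
  simp only [Units.val_pow_eq_pow_val, Units.val_mk0]
  exact eq_comm

theorem hasBijection_iff (P : Sylow p G) :
    HasBijection P ↔ wt (cl p) G = wt (cl p) (NN P) := by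
  constructor
  · rintro ⟨e, he⟩
    refine wt_of_bij p (((eqv p G).symm.trans e).trans (eqv p (NN P))) fun χ => ?_
    rw [kap_eq_iff]
    have h1 := he ((eqv p G).symm χ) (ndeg χ.1) (ndeg (e ((eqv p G).symm χ)).1)
      ((deg_iff χ.2.1).mpr rfl) ((deg_iff (e ((eqv p G).symm χ)).2.1).mpr rfl)
    rw [cong_iff] at h1
    exact h1
  · intro h
    obtain ⟨e, he⟩ := exists_bij p h
    refine ⟨((eqv p G).trans e).trans (eqv p (NN P)).symm, fun χ m n h1 h2 => ?_⟩
    have h3 := he (eqv p G χ)
    rw [kap_eq_iff] at h3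
    rw [deg_iff χ.2.1] at h1
    rw [deg_iff (((eqv p G).trans e).trans (eqv p (NN P)).symm χ).2.1] at h2
    rw [cong_iff, h1, h2]
    exact h3

theorem over_iff {L X : Type} [Group L] [Finite L] [Group X] (j : L →* X) (θ : L → ℂ)
    (χ : X → ℂ) : ∑ᶠ l : L, χ (j l) * θ l⁻¹ ≠ 0 ↔ ov j θ χ := by
  haveI := Fintype.ofFinite L
  rw [ov_iff, finsum_eq_sum_of_fintype]
  unfold Pool.Agent.Helper884.IC.B
  have h : (Nat.card L : ℂ)⁻¹ ≠ 0 := inv_ne_zero (by exact_mod_cast Nat.card_pos.ne')
  rw [mul_ne_zero_iff]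
  exact ⟨fun h1 => ⟨h, h1⟩, fun h1 => h1.2⟩

/-- the two descriptions of the characters over `θ` -/
def eqvOver (p : ℕ) [Fact p.Prime] {L X : Type} [Group L] [Finite L] [Group X] [Finite X]
    (j : L →* X) (θ : L → ℂ) : IrrOver p j θ ≃
      {χ : X → ℂ // Pool.Agent.H254R3.IN.IsIrr χ ∧ (ndeg χ : ZMod p) ≠ 0 ∧ ov j θ χ} :=
  Equiv.subtypeEquivRight fun χ => by
    constructor
    · rintro ⟨h1, h2, h3⟩
      exact ⟨h1, (deg_prime_iff h1).mp h2, (over_iff j θ χ).mp h3⟩
    · rintro ⟨h1, h2, h3⟩
      exact ⟨h1, (deg_prime_iff h1).mpr h2, (over_iff j θ χ).mpr h3⟩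

theorem hasRelative_of (P : Sylow p G) (L : Subgroup G) (θ : L → ℂ)
    (h : ∃ e : {χ : G → ℂ // Pool.Agent.H254R3.IN.IsIrr χ ∧ (ndeg χ : ZMod p) ≠ 0 ∧
        ov L.subtype θ χ} ≃
      {χ : (L ⊔ NN P : Subgroup G) → ℂ // Pool.Agent.H254R3.IN.IsIrr χ ∧ (ndeg χ : ZMod p) ≠ 0 ∧
        ov (Subgroup.inclusion (le_sup_left : L ≤ L ⊔ NN P)) θ χ},
      ∀ χ, ((ndeg χ.1 : ZMod p)) ^ 2 = (ndeg (e χ).1 : ZMod p) ^ 2) : HasRelativeBijection P L θ := by
  obtain ⟨e, he⟩ := h
  refine ⟨((eqvOver p L.subtype θ).trans e).trans (eqvOver p _ θ).symm, fun χ m n h1 h2 => ?_⟩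
  have h3 := he (eqvOver p L.subtype θ χ)
  rw [deg_iff χ.2.1] at h1
  rw [deg_iff (((eqvOver p L.subtype θ).trans e).trans (eqvOver p _ θ).symm χ).2.1] at h2
  rw [cong_iff, h1, h2]
  exact h3

end

/-- (1) If the finite group `G` is unobstructed and `P` is a Sylow `p`-subgroup of `G`, then Q1 holds for `G` and
`P`, also in the relative form over every `P`-invariant irreducible character of a normal subgroup.
(2) `G` is unobstructed if its Sylow `p`-subgroups are cyclic. (3) `G` is unobstructed if it has normal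
subgroups `M i` whose intersection is solvable and such that all `G / M i` are unobstructed. -/
theorem result (p : ℕ) [Fact p.Prime] :
    (∀ (G : Type) [Group G] [Finite G], Unobstructed p G → ∀ P : Sylow p G,
      HasBijection P ∧ ∀ L : Subgroup G, L.Normal → ∀ θ : L → ℂ, IsIrr θ → Invariant P L θ →
        HasRelativeBijection P L θ) ∧
    (∀ (G : Type) [Group G] [Finite G], (∀ Q : Sylow p G, IsCyclic Q) → Unobstructed p G) ∧
    ∀ (G : Type) [Group G] [Finite G] (ι : Type) [Finite ι] (M : ι → Subgroup G)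
      [∀ i, (M i).Normal], IsSolvable (⨅ i, M i : Subgroup G) →
      (∀ i, Unobstructed p (G ⧸ M i)) → Unobstructed p G := by
  refine ⟨?_, ?_, ?_⟩
  · intro G _ _ hG P
    have key := fun (Y : Type) [Group Y] [Finite Y] (hY : Pool.Agent.K3h83.PI.SeP p Y)
      (Q : Sylow p Y) => Pool.Agent.K3h83.PI.sec_main Y hY Q
    refine ⟨(hasBijection_iff P).mpr (key G hG P), fun L hL θ hθ hinv => ?_⟩
    exact hasRelative_of P L θ (Pool.Agent.K3h83.PI.relBij Pool.Agent.K3h83.IN.a_S1
      Pool.Agent.K3h83.IN.a_S6 Pool.Agent.K3h83.IN.a_S3 Pool.Agent.K3h83.IN.a_S4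
      Pool.Agent.K3h83.IN.a_S5 Pool.Agent.K3h83.IN.a_S13 (Pool.Agent.K3h83.PI.cls_SeP p)
      (fun Y _ _ hY => key Y hY) hG P L hL θ hθ fun x hx l l' h => hinv x hx l l' h)
  · intro G _ _ hcyc
    exact Pool.Agent.K3h83.PI.SeP_of_cyclic hcyc
  · intro G _ _ ι _ M hM hsol hq
    exact Pool.Agent.K3h83.PI.SeP_of_sub M hsol hq

end Pool.Agent.Results.MP_5ecade_al.CyclicMonolithicSections
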