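import Pool.Agent.K3h3.MK.Main

/-!
# McKay bijections with degrees congruent up to sign modulo `p`: one congruence for one degree class

For a finite group `G` let `M_b(G)` be the number of the irreducible characters of `G` whose degree is
congruent to `b` or `-b` modulo `p`. Question Q1 for the prime `p` says that `M_b(G) = M_b(N_G(P))` for all
`b` prime to `p`, all finite groups `G` and all Sylow `p`-subgroups `P` of `G`.

We prove: if `q ≠ p` is a prime which does not divide `(p - 1) / 2` (for instance `q = 2` if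
`p ≡ 3` modulo `4`, or any `q > p`), then Q1 for the prime `p` and all finite groups holds if and only if
`M_b(G) ≡ M_b(N_G(P))` modulo `q` for one number `b` prime to `p` and for all but finitely many `G`. More
generally this is so for every class of finite groups which is closed under direct products with
metacyclic groups of order prime to `p` and under regular wreath products with the group of order `q`.

Proof. Let `A` be the group of the units modulo `p` and `m(G) = ∑ [χ(1)²]` in the group ring `ℤ[A]`, the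
sum over the irreducible characters of degree prime to `p`, and `D = m(G) - m(N_G(P))`. Then Q1 for `G` is
`D = 0`.
* `m(G × H) = m(G) m(H)`, so that `D(G × H) = D(G) m(H)` if `p` does not divide `|H|`. For
  `H = C_Q ⋊ C_a`, `Q = 1 + a k` a prime number, `m(H) = k [a²] + a`. With Dirichlet's theorem it follows
  that `q` divides `D` for all `G`.
* Clifford theory for `W = G ≀ C_q` gives `q m(W) = [q²] (m(G)^q - ψ m(G)) + q² ψ m(G)`, with the ring
  endomorphism `ψ` given by the `q`-th power map of `A`. The normalizer of the Sylow subgroup `P ^ q` of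
  `W` is `N_G(P) ≀ C_q`. If `q ^ j` divides `D(G)` and `D(W)`, `j ≥ 1`, then `q ^ (j+1)` divides
  `m(G)^q - m(N_G(P))^q`, hence also `ψ D(G)`; and `ψ` is injective on the squares of `A`, a group of order
  `(p - 1) / 2`. So `q ^ (j+1)` divides `D(G)`, for all `j`.
-/

set_option autoImplicit false
set_option linter.unusedSectionVars false

noncomputable section

namespace Pool.Agent.Results.MP_5ecade_al.OneCongruence

/-- `χ` is the character of an irreducible complex representation of `G`. -/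
def IsIrr {G : Type} [Group G] (χ : G → ℂ) : Prop :=
  ∃ (V : Type) (_ : AddCommGroup V) (_ : Module ℂ V) (_ : FiniteDimensional ℂ V)
    (ρ : Representation ℂ G V), ρ.IsIrreducible ∧ χ = ρ.character

/-- The set `Irr_{p'}(G)` of the irreducible characters of `G` of degree prime to `p`. -/
def IrrP (p : ℕ) (G : Type) [Group G] : Type :=
  {χ : G → ℂ // IsIrr χ ∧ ∃ d : ℕ, χ 1 = (d : ℂ) ∧ ¬ p ∣ d}

/-- The normalizer of a Sylow subgroup. -/
abbrev N {p : ℕ} {G : Type} [Group G] (P : Sylow p G) : Subgroup G :=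
  Subgroup.normalizer ((P : Subgroup G) : Set G)

/-- The bijection of Q1 for `G` and `P`: from `Irr_{p'}(G)` onto `Irr_{p'}(N_G(P))` with degrees congruent
up to sign modulo `p`. -/
def HasBijection {p : ℕ} {G : Type} [Group G] (P : Sylow p G) : Prop :=
  ∃ e : IrrP p G ≃ IrrP p (N P), ∀ (χ : IrrP p G) (m n : ℕ), χ.1 1 = (m : ℂ) → (e χ).1 1 = (n : ℂ) →
    (m : ℤ) ≡ n [ZMOD p] ∨ (m : ℤ) ≡ -n [ZMOD p]

/-- The number `M_b(G)` of the irreducible characters of `G` whose degree is congruent to `b` or `-b`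
modulo `p`. -/
def M (p b : ℕ) (G : Type) [Group G] : ℕ :=
  Nat.card {χ : G → ℂ // IsIrr χ ∧ ∃ d : ℕ, χ 1 = (d : ℂ) ∧
    ((d : ℤ) ≡ b [ZMOD p] ∨ (d : ℤ) ≡ -b [ZMOD p])}

/-- A group with a cyclic normal subgroup with cyclic quotient. -/
def IsMetacyclic (H : Type) [Group H] : Prop :=
  ∃ K : Subgroup H, ∃ _ : K.Normal, IsCyclic K ∧ IsCyclic (H ⧸ K)

/-- The regular wreath product `G ≀ C_q`. -/
abbrev Wreath (q : ℕ) (G : Type) [Group G] : Type := Pool.Agent.K3h3.MK.Wr G (Multiplicative (ZMod q))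

section

open Pool.Agent.K3h3.MK Pool.Agent.K3h3.KB

variable {p : ℕ} [hp : Fact p.Prime] {G : Type} [Group G] [Finite G]

theorem deg_iff {χ : G → ℂ} (h : IsIrr χ) {d : ℕ} : χ 1 = (d : ℂ) ↔ d = ndeg χ := by
  constructor
  · intro h1
    exact (ndeg_eq h1.symm).symm
  · rintro rfl
    exact (ndeg_cast h).symm

theorem cong_iff (m n : ℕ) : ((m : ℤ) ≡ n [ZMOD p] ∨ (m : ℤ) ≡ -n [ZMOD p]) ↔
    ((m : ZMod p)) ^ 2 = (n : ZMod p) ^ 2 := by
  rw [sq_eq_sq_iff_eq_or_eq_neg, ← ZMod.intCast_eq_intCast_iff, ← ZMod.intCast_eq_intCast_iff]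
  simp

theorem irrP_iff (χ : G → ℂ) : (IsIrr χ ∧ ∃ d : ℕ, χ 1 = (d : ℂ) ∧ ¬ p ∣ d) ↔
    (IsIrr χ ∧ (ndeg χ : ZMod p) ≠ 0) := by
  constructor
  · rintro ⟨h1, d, h2, h3⟩
    refine ⟨h1, ?_⟩
    rw [deg_iff h1] at h2
    rw [← h2]
    exact fun h => h3 ((ZMod.natCast_eq_zero_iff _ _).mp h)
  · rintro ⟨h1, h2⟩
    exact ⟨h1, ndeg χ, (deg_iff h1).mpr rfl, fun h => h2 ((ZMod.natCast_eq_zero_iff _ _).mpr h)⟩

/-- the two descriptions of `Irr_{p'}(G)` -/
def eqv (p : ℕ) [Fact p.Prime] (G : Type) [Group G] [Finite G] : IrrP p G ≃ X p G :=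
  Equiv.subtypeEquivRight fun χ => irrP_iff χ

theorem kap_eq_iff {H : Type} [Group H] [Finite H] (χ : X p G) (ψ : X p H) :
    kap p ψ = kap p χ ↔ ((ndeg χ.1 : ZMod p)) ^ 2 = (ndeg ψ.1 : ZMod p) ^ 2 := by
  unfold kap
  rw [Units.ext_iff]
  simp only [Units.val_pow_eq_pow_val, Units.val_mk0]
  exact eq_comm

theorem hasBijection_iff (P : Sylow p G) :
    HasBijection P ↔ wt (cl p) G = wt (cl p) (NN P) := by
  constructor
  · rintro ⟨e, he⟩
    refine wt_of_bij p (((eqv p G).symm.trans e).trans (eqv p (NN P))) fun χ => ?_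
    rw [kap_eq_iff]
    have h1 := he ((eqv p G).symm χ) (ndeg χ.1) (ndeg (e ((eqv p G).symm χ)).1)
      ((deg_iff χ.2.1).mpr rfl) ((deg_iff (e ((eqv p G).symm χ)).2.1).mpr rfl)
    rw [cong_iff] at h1
    exact h1
  · intro h
    obtain ⟨e, he⟩ := exists_bij p h
    refine ⟨((eqv p G).trans e).trans (eqv p (NN P)).symm, fun χ m n h1 h2 => ?_⟩
    have h3 := he (eqv p G χ)
    rw [kap_eq_iff] at h3
    rw [deg_iff χ.2.1] at h1
    rw [deg_iff (((eqv p G).trans e).trans (eqv p (NN P)).symm χ).2.1] at h2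
    rw [cong_iff, h1, h2]
    exact h3

theorem M_eq {b : ℕ} (hb : ¬ p ∣ b) : ∃ u : (ZMod p)ˣ, ∀ (G : Type) [Group G] [Finite G],
    (wt (cl p) G).coeff (u ^ 2) = (M p b G : ℤ) := by
  have h0 : (b : ZMod p) ≠ 0 := fun h => hb ((ZMod.natCast_eq_zero_iff _ _).mp h)
  refine ⟨Units.mk0 (b : ZMod p) h0, fun G _ _ => ?_⟩
  rw [coeff_wt]
  congr 1
  refine Nat.card_congr
    { toFun := fun χ => ⟨χ.1.1, χ.1.2.1, ndeg χ.1.1, (deg_iff χ.1.2.1).mpr rfl, ?_⟩
      invFun := fun χ => ⟨⟨χ.1, χ.2.1, ?_⟩, ?_⟩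
      left_inv := fun _ => rfl
      right_inv := fun _ => rfl }
  · rw [cong_iff]
    have h1 := χ.2
    unfold kap at h1
    rw [Units.ext_iff] at h1
    simpa only [Units.val_pow_eq_pow_val, Units.val_mk0] using h1
  · obtain ⟨χ, h1, d, h2, h3⟩ := χ
    rw [cong_iff] at h3
    rw [deg_iff h1] at h2
    subst h2
    intro h4
    rw [h4, zero_pow two_ne_zero] at h3
    exact h0 (pow_eq_zero_iff two_ne_zero |>.mp h3.symm)
  · obtain ⟨χ, h1, d, h2, h3⟩ := χ
    rw [cong_iff] at h3
    rw [deg_iff h1] at h2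
    subst h2
    unfold kap
    rw [Units.ext_iff]
    simpa only [Units.val_pow_eq_pow_val, Units.val_mk0] using h3

end

/-- **One congruence decides.** Let `p` be a prime number, `q ≠ p` a prime number which does not divide
`(p - 1) / 2`, `b` prime to `p`, and `C` a number. (1) Q1 holds for the prime `p` and all finite groups if
and only if `M_b(G) ≡ M_b(N_G(P))` modulo `q` for all finite groups `G` of order at least `C` and all Sylow
`p`-subgroups `P` of `G`. (2) The same for the groups in a class `𝒢` of finite groups which is closed under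
direct products with metacyclic groups of order prime to `p` and under regular wreath products with the
group of order `q`. -/
theorem result (p q : ℕ) [Fact p.Prime] (hq : q.Prime) (hqp : q ≠ p) (hq2 : ¬ q ∣ (p - 1) / 2)
    (b : ℕ) (hb : ¬ p ∣ b) (C : ℕ) :
    ((∀ (G : Type) [Group G] [Finite G] (P : Sylow p G), HasBijection P) ↔
      ∀ (G : Type) [Group G] [Finite G] (P : Sylow p G), C ≤ Nat.card G →
        M p b G ≡ M p b (N P) [MOD q]) ∧
    ∀ 𝒢 : (G : Type) → [Group G] → Prop,
      (∀ (G H : Type) [Group G] [Finite G] [Group H] [Finite H], 𝒢 G → IsMetacyclic H →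
        ¬ p ∣ Nat.card H → 𝒢 (G × H)) →
      (∀ (G : Type) [Group G] [Finite G], 𝒢 G → 𝒢 (Wreath q G)) →
      ((∀ (G : Type) [Group G] [Finite G] (P : Sylow p G), 𝒢 G → HasBijection P) ↔
        ∀ (G : Type) [Group G] [Finite G] (P : Sylow p G), 𝒢 G → C ≤ Nat.card G →
          M p b G ≡ M p b (N P) [MOD q]) := by
  have key : ∀ 𝒢 : (G : Type) → [Group G] → Prop,
      (∀ (G H : Type) [Group G] [Finite G] [Group H] [Finite H], 𝒢 G → IsMetacyclic H →
        ¬ p ∣ Nat.card H → 𝒢 (G × H)) →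
      (∀ (G : Type) [Group G] [Finite G], 𝒢 G → 𝒢 (Wreath q G)) →
      ((∀ (G : Type) [Group G] [Finite G] (P : Sylow p G), 𝒢 G → HasBijection P) ↔
        ∀ (G : Type) [Group G] [Finite G] (P : Sylow p G), 𝒢 G → C ≤ Nat.card G →
          M p b G ≡ M p b (N P) [MOD q]) := by
    intro 𝒢 hprod hwr
    obtain ⟨u, hu⟩ := M_eq (p := p) hb
    have : NeZero q := ⟨hq.ne_zero⟩
    constructor
    · intro h G _ _ P hG _
      have h1 := (hasBijection_iff P).mp (h G P hG)
      have h2 : M p b G = M p b (N P) := by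
        have h3 := hu G
        rw [h1, hu] at h3
        exact_mod_cast h3.symm
      rw [h2]
    · intro h G _ _ P hG
      rw [hasBijection_iff]
      refine Pool.Agent.K3h3.MK.main p hq hqp hq2 u C (S := Multiplicative (ZMod q))
        (Nat.card_zmod q) (fun G => 𝒢 G) hprod hwr ?_ G hG P
      intro G _ _ hG hC P
      have h1 := h G P hG hC
      have h2 : (Pool.Agent.K3h3.MK.wt (Pool.Agent.K3h3.MK.cl p) G -
          Pool.Agent.K3h3.MK.wt (Pool.Agent.K3h3.MK.cl p) (Pool.Agent.K3h3.MK.NN P)).coeff (u ^ 2) =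
          (M p b G : ℤ) - (M p b (N P) : ℤ) := by
        rw [← hu G, ← hu (N P)]
        rfl
      rw [h2]
      exact (Nat.modEq_iff_dvd.mp h1.symm)
  refine ⟨?_, key⟩
  have h := key (fun _ => True) (fun _ _ _ _ _ _ _ _ _ => trivial) (fun _ _ _ _ => trivial)
  simpa using h

end Pool.Agent.Results.MP_5ecade_al.OneCongruence
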