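import Pool.Agent.K3h3.MK.Asy
import Pool.Agent.Results.MP_5ecade_al.OneCongruence

/-!
# McKay bijections with degrees congruent up to sign modulo `p`: one-sided asymptotic inequalities

For a finite group `G` let `k'(G)` be the number of the irreducible characters of degree prime to `p`, and
`M_b(G)` the number of those whose degree is congruent to `b` or `-b` modulo `p`. Question Q1 for the prime
`p` says that `M_a(G) = M_a(N_G(P))` for all `a` prime to `p` and all `G`, `P`; in particular
`k'(G) = k'(N_G(P))`.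

We prove that two asymptotic inequalities, in opposite directions, for one fixed class `b` are enough: Q1
for the prime `p` and all finite groups holds if and only if for every `ε > 0` there is `C` such that for
all `G`

* `k'(N_G(P)) ≤ C |G|^ε k'(G)`, and
* `M_b(G) ≤ M_b(N_G(P)) + ε k'(N_G(P))` if `|G| ≥ C`,

and also if and only if this holds with `G` and `N_G(P)` exchanged in these inequalities. More generally
this is true for the groups of every class of finite groups which is closed under `G ↦ G × G` and under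
direct products with metacyclic groups of order prime to `p`.

Proof. The first inequality for the powers of `G` gives `k'(N_G(P)) ≤ k'(G)`. Let `Q = 1 + a k` be a prime
number and `H = C_Q ⋊ C_a`, a group with `k` irreducible characters of degree `a` and `a` of degree one. Then
`M_b(G × H) = k M_(b/a)(G) + a M_b(G)`, and the same for the normalizer of the Sylow subgroup `P × 1`, which
is `N_G(P) × H`. With `k → ∞` (Dirichlet's theorem) the second inequality gives
`M_(b/a)(G) ≤ M_(b/a)(N_G(P)) + ε k'(N_G(P))` for all `ε > 0`, hence `M_c(G) ≤ M_c(N_G(P))` for all `c`. The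
sum over the classes is `k'(G) ≤ k'(N_G(P)) ≤ k'(G)`; so there is equality everywhere.
-/

set_option autoImplicit false

noncomputable section

namespace Pool.Agent.Results.MP_5ecade_al.OneSidedLimits

open Pool.Agent.Results.MP_5ecade_al.OneCongruence (IrrP N HasBijection M IsMetacyclic hasBijection_iff
  eqv M_eq)

/-- The number `k'(G)` of the irreducible characters of `G` of degree prime to `p`. -/
def k' (p : ℕ) (G : Type) [Group G] : ℕ := Nat.card (IrrP p G)

section

open Pool.Agent.K3h3.MK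

theorem k'_eq (p : ℕ) [Fact p.Prime] (G : Type) [Group G] [Finite G] :
    k' p G = Nat.card (X p G) := Nat.card_congr (eqv p G)

theorem k'_sd (p : ℕ) [Fact p.Prime] {G : Type} [Group G] [Finite G] (P : Sylow p G) :
    Nat.card (X p (sd p true P)) = k' p G ∧ Nat.card (X p (sd p false P)) = k' p (N P) := by
  refine ⟨?_, (k'_eq p (N P)).symm⟩
  rw [k'_eq]
  exact card_X_congr p Subgroup.topEquiv

end

/-- **One-sided asymptotic inequalities for one class of degrees.** Let `p` be a prime number and let `b`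
be prime to `p`. (1) Q1 holds for the prime `p` and all finite groups if and only if for every `ε > 0` there
is `C` such that for all finite groups `G` and Sylow `p`-subgroups `P` we have
`k'(N_G(P)) ≤ C |G|^ε k'(G)`, and `M_b(G) ≤ M_b(N_G(P)) + ε k'(N_G(P))` if `|G| ≥ C`; and if and only if
the same is true with `G` and `N_G(P)` exchanged. (2) The same for the groups in a class `𝒢` of finite groups
which is closed under direct products with metacyclic groups of order prime to `p` and under
`G ↦ G × G`. -/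
theorem result (p : ℕ) [Fact p.Prime] (b : ℕ) (hb : ¬ p ∣ b) :
    List.TFAE [
      ∀ (G : Type) [Group G] [Finite G] (P : Sylow p G), HasBijection P,
      ∀ ε : ℝ, 0 < ε → ∃ C : ℝ, ∀ (G : Type) [Group G] [Finite G] (P : Sylow p G),
        (k' p (N P) : ℝ) ≤ C * (Nat.card G : ℝ) ^ ε * k' p G ∧
        (C ≤ Nat.card G → (M p b G : ℝ) ≤ M p b (N P) + ε * k' p (N P)),
      ∀ ε : ℝ, 0 < ε → ∃ C : ℝ, ∀ (G : Type) [Group G] [Finite G] (P : Sylow p G),
        (k' p G : ℝ) ≤ C * (Nat.card G : ℝ) ^ ε * k' p (N P) ∧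
        (C ≤ Nat.card G → (M p b (N P) : ℝ) ≤ M p b G + ε * k' p G)] ∧
    ∀ 𝒢 : (G : Type) → [Group G] → Prop,
      (∀ (G H : Type) [Group G] [Finite G] [Group H] [Finite H], 𝒢 G → IsMetacyclic H →
        ¬ p ∣ Nat.card H → 𝒢 (G × H)) →
      (∀ (G : Type) [Group G] [Finite G], 𝒢 G → 𝒢 (G × G)) →
      List.TFAE [
        ∀ (G : Type) [Group G] [Finite G] (P : Sylow p G), 𝒢 G → HasBijection P,
        ∀ ε : ℝ, 0 < ε → ∃ C : ℝ, ∀ (G : Type) [Group G] [Finite G] (P : Sylow p G), 𝒢 G →
          (k' p (N P) : ℝ) ≤ C * (Nat.card G : ℝ) ^ ε * k' p G ∧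
          (C ≤ Nat.card G → (M p b G : ℝ) ≤ M p b (N P) + ε * k' p (N P)),
        ∀ ε : ℝ, 0 < ε → ∃ C : ℝ, ∀ (G : Type) [Group G] [Finite G] (P : Sylow p G), 𝒢 G →
          (k' p G : ℝ) ≤ C * (Nat.card G : ℝ) ^ ε * k' p (N P) ∧
          (C ≤ Nat.card G → (M p b (N P) : ℝ) ≤ M p b G + ε * k' p G)] := by
  have key : ∀ 𝒢 : (G : Type) → [Group G] → Prop,
      (∀ (G H : Type) [Group G] [Finite G] [Group H] [Finite H], 𝒢 G → IsMetacyclic H →
        ¬ p ∣ Nat.card H → 𝒢 (G × H)) →
      (∀ (G : Type) [Group G] [Finite G], 𝒢 G → 𝒢 (G × G)) →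
      List.TFAE [
        ∀ (G : Type) [Group G] [Finite G] (P : Sylow p G), 𝒢 G → HasBijection P,
        ∀ ε : ℝ, 0 < ε → ∃ C : ℝ, ∀ (G : Type) [Group G] [Finite G] (P : Sylow p G), 𝒢 G →
          (k' p (N P) : ℝ) ≤ C * (Nat.card G : ℝ) ^ ε * k' p G ∧
          (C ≤ Nat.card G → (M p b G : ℝ) ≤ M p b (N P) + ε * k' p (N P)),
        ∀ ε : ℝ, 0 < ε → ∃ C : ℝ, ∀ (G : Type) [Group G] [Finite G] (P : Sylow p G), 𝒢 G →
          (k' p G : ℝ) ≤ C * (Nat.card G : ℝ) ^ ε * k' p (N P) ∧
          (C ≤ Nat.card G → (M p b (N P) : ℝ) ≤ M p b G + ε * k' p G)] := by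
    intro 𝒢 hprod hsq
    obtain ⟨u, hu⟩ := M_eq (p := p) hb
    -- the consequences of the bijections
    have hbij : ∀ (G : Type) [Group G] [Finite G] (P : Sylow p G), HasBijection P →
        M p b G = M p b (N P) ∧ k' p G = k' p (N P) := by
      intro G _ _ P h
      refine ⟨?_, ?_⟩
      · have h1 := (hasBijection_iff P).mp h
        have h3 := hu G
        rw [h1, hu] at h3
        exact_mod_cast h3.symm
      · obtain ⟨e, -⟩ := h
        exact Nat.card_congr e
    have hone : ∀ (G : Type) [Group G] [Finite G] (ε : ℝ), 0 < ε → (1 : ℝ) ≤ (Nat.card G : ℝ) ^ ε := by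
      intro G _ _ ε hε
      exact Real.one_le_rpow (by exact_mod_cast Nat.card_pos (α := G)) hε.le
    have hsum : ∀ (G : Type) [Group G] [Finite G] (P : Sylow p G),
        (((Pool.Agent.K3h3.MK.wt (Pool.Agent.K3h3.MK.cl p)
          (Pool.Agent.K3h3.MK.sd p true P)).coeff (u ^ 2) : ℤ) : ℝ) = M p b G ∧
        (((Pool.Agent.K3h3.MK.wt (Pool.Agent.K3h3.MK.cl p)
          (Pool.Agent.K3h3.MK.sd p false P)).coeff (u ^ 2) : ℤ) : ℝ) = M p b (N P) := by
      intro G _ _ P
      refine ⟨?_, ?_⟩
      · rw [Pool.Agent.K3h3.MK.wt_sd_true, hu]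
        push_cast
        rfl
      · rw [Pool.Agent.K3h3.MK.wt_sd_false, hu]
        push_cast
        rfl
    tfae_have 1 → 2 := by
      intro h ε hε
      refine ⟨1, fun G _ _ P hG => ?_⟩
      obtain ⟨h1, h2⟩ := hbij G P (h G P hG)
      rw [h1, h2, one_mul]
      exact ⟨le_mul_of_one_le_left (Nat.cast_nonneg _) (hone G ε hε), fun _ =>
        le_add_of_nonneg_right (by positivity)⟩
    tfae_have 1 → 3 := by
      intro h ε hε
      refine ⟨1, fun G _ _ P hG => ?_⟩
      obtain ⟨h1, h2⟩ := hbij G P (h G P hG)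
      rw [h1, h2, one_mul]
      exact ⟨le_mul_of_one_le_left (Nat.cast_nonneg _) (hone G ε hε), fun _ =>
        le_add_of_nonneg_right (by positivity)⟩
    tfae_have 2 → 1 := by
      intro h G _ _ P hG
      rw [hasBijection_iff]
      refine Pool.Agent.K3h3.MK.main_asy p (fun G => 𝒢 G) hprod hsq false u (fun ε hε => ?_) hG P
      obtain ⟨C, hC⟩ := h ε hε
      refine ⟨C, fun G _ _ P hG => ?_⟩
      have h1 := hC G P hG
      have h2 := k'_sd p P
      have h3 := hsum G P
      have e1 : Nat.card (Pool.Agent.K3h3.MK.X p (Pool.Agent.K3h3.MK.sd p (!false) P)) = k' p G :=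
        h2.1
      have e2 : (((Pool.Agent.K3h3.MK.wt (Pool.Agent.K3h3.MK.cl p)
          (Pool.Agent.K3h3.MK.sd p (!false) P)).coeff (u ^ 2) : ℤ) : ℝ) = M p b G := h3.1
      rw [e1, e2, h2.2, h3.2]
      exact h1
    tfae_have 3 → 1 := by
      intro h G _ _ P hG
      rw [hasBijection_iff]
      refine Pool.Agent.K3h3.MK.main_asy p (fun G => 𝒢 G) hprod hsq true u (fun ε hε => ?_) hG P
      obtain ⟨C, hC⟩ := h ε hε
      refine ⟨C, fun G _ _ P hG => ?_⟩
      have h1 := hC G P hG
      have h2 := k'_sd p P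
      have h3 := hsum G P
      have e1 : Nat.card (Pool.Agent.K3h3.MK.X p (Pool.Agent.K3h3.MK.sd p (!true) P)) =
        k' p (N P) := h2.2
      have e2 : (((Pool.Agent.K3h3.MK.wt (Pool.Agent.K3h3.MK.cl p)
          (Pool.Agent.K3h3.MK.sd p (!true) P)).coeff (u ^ 2) : ℤ) : ℝ) = M p b (N P) := h3.2
      rw [e1, e2, h2.1, h3.1]
      exact h1
    tfae_finish
  refine ⟨?_, key⟩
  have h := key (fun _ => True) (fun _ _ _ _ _ _ _ _ _ => trivial) (fun _ _ _ _ => trivial)
  simpa using h

end Pool.Agent.Results.MP_5ecade_al.OneSidedLimits
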