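import Pool.Agent.K3h83.PI.RedA

/-!
# McKay bijections with degrees congruent up to sign modulo `p`: a reduction to groups whose solvable
# radical is the center

For a finite group `G` and a Sylow `p`-subgroup `P` of `G`, question Q1 asks for a bijection from
`Irr_{p'}(G)` onto `Irr_{p'}(N_G(P))` with degrees congruent up to sign modulo `p` (the Isaacs-Navarro
form of the McKay conjecture). We call the pair `(G, P)` reduced if
* the center `Z` of `G` is cyclic, of order prime to `p` and contained in the commutator subgroup of `G`,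
* every solvable normal subgroup of `G` is contained in `Z`,
* `G = L N_G(P)` for every normal subgroup `L` of `G` which is not contained in `Z`, and `P` is not normal,
* two normal subgroups which are not contained in `Z` have an intersection not contained in `Z`, so
  that `G / Z` has exactly one minimal normal subgroup, and it is not solvable.

We prove: if Q1 holds for the reduced pairs, then Q1 holds for all finite groups, and moreover in
the relative form: if `L` is a normal subgroup of `G` and `θ` a `P`-invariant irreducible character of `L`,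
then there is a bijection from the irreducible characters of `G` of degree prime to `p` over `θ`
onto those of `L N_G(P)` over `θ` with degrees congruent up to sign modulo `p`. More generally this is
so within every class of finite groups closed under subgroups of index prime to `p`, quotients and
central extensions with cyclic kernel. For the class of the solvable groups there are no reduced pairs.

Proof (outline). Let `A` be the group of the units modulo `p`, `w(n) = [n²]` in the group ring `ℤ[A]` if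
`p` does not divide `n` and `w(n) = 0` otherwise; Q1 for `G` is the equality of `m(G) = ∑ w(χ(1))` and
`m(N_G(P))`. We consider a counterexample with minimal `|G : Z(G)|` and then minimal `|G|`.
* Central characters. The sums over the characters over `ν` and over `ν^j` (`j` prime to the order of
  `ν ∈ Irr(Z)`) are equal (field automorphisms); with induction for `G / K`, `K ≤ Z`, it follows that only
  faithful `ν` matter. So `Z` is cyclic; replacing the central extension one gets `Z ≤ G'`, and then,
  with the transfer, that `p` does not divide `|Z|`.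
* Normal subgroups `L`. With Clifford theory and character triples the characters over a
  `P`-invariant `θ ∈ Irr(L)` are those over a central character of a central extension of
  `G_θ / L`. This gives the relative form and `G = L N_G(P)`.
* Solvable chief factors `L / Z`. Here `L` is a group of symplectic type (`L / Z` an elementary
  abelian `q`-group, `q ≠ p`), `L ∩ N_G(P) = Z`, and an elementary abelian normal `p`-subgroup `E` of
  `N_G(P)` acts on `L` with `C_L(E) = Z`. We show that `N_G(P)` acts linearly (not only projectively) on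
  the space of the character of `L` over `ν`: for a Sylow `q`-subgroup by a decomposition of `L` into the
  centralizers of the subgroups of index `p` of `E` and a counting argument for groups of order `p`,
  in general with determinants and transfer. So the characters of `G` over `ν` correspond to those of
  `N_G(P)` over `ν`, and `|L : Z|` is `1` modulo `p`.
-/

set_option autoImplicit false
set_option linter.unusedSectionVars false

noncomputable section

namespace Pool.Agent.Results.MP_5ecade_al.SolvableRadicalReduction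

/-- `χ` is the character of an irreducible complex representation of `G`. -/
def IsIrr {G : Type} [Group G] (χ : G → ℂ) : Prop :=
  ∃ (V : Type) (_ : AddCommGroup V) (_ : Module ℂ V) (_ : FiniteDimensional ℂ V)
    (ρ : Representation ℂ G V), ρ.IsIrreducible ∧ χ = ρ.character

/-- The set `Irr_{p'}(G)` of the irreducible characters of `G` of degree prime to `p`. -/
def IrrP (p : ℕ) (G : Type) [Group G] : Type :=
  {χ : G → ℂ // IsIrr χ ∧ ∃ d : ℕ, χ 1 = (d : ℂ) ∧ ¬ p ∣ d}

/-- The normalizer of a Sylow subgroup. -/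
abbrev N {p : ℕ} {G : Type} [Group G] (P : Sylow p G) : Subgroup G :=
  Subgroup.normalizer ((P : Subgroup G) : Set G)

/-- The bijection of Q1 for `G` and `P`: from `Irr_{p'}(G)` onto `Irr_{p'}(N_G(P))` with degrees congruent
up to sign modulo `p`. -/
def HasBijection {p : ℕ} {G : Type} [Group G] (P : Sylow p G) : Prop :=
  ∃ e : IrrP p G ≃ IrrP p (N P), ∀ (χ : IrrP p G) (m n : ℕ), χ.1 1 = (m : ℂ) → (e χ).1 1 = (n : ℂ) →
    (m : ℤ) ≡ n [ZMOD p] ∨ (m : ℤ) ≡ -n [ZMOD p]

/-- The irreducible characters of `X` of degree prime to `p` whose restriction to the group `L` (embedded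
in `X` by `j`) contains `θ`, that is, which are not orthogonal to `θ` on `L`. -/
def IrrOver (p : ℕ) {L X : Type} [Group L] [Group X] (j : L →* X) (θ : L → ℂ) : Type :=
  {χ : X → ℂ // IsIrr χ ∧ (∃ d : ℕ, χ 1 = (d : ℂ) ∧ ¬ p ∣ d) ∧ ∑ᶠ l : L, χ (j l) * θ l⁻¹ ≠ 0}

/-- The relative form: a bijection from the irreducible characters of `G` of degree prime to `p`
over `θ` onto those of `L N_G(P)`, with degrees congruent up to sign modulo `p`. -/
def HasRelativeBijection {p : ℕ} {G : Type} [Group G] (P : Sylow p G) (L : Subgroup G)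
    (θ : L → ℂ) : Prop :=
  ∃ e : IrrOver p L.subtype θ ≃ IrrOver p (Subgroup.inclusion (le_sup_left : L ≤ L ⊔ N P)) θ,
    ∀ (χ : IrrOver p L.subtype θ) (m n : ℕ), χ.1 1 = (m : ℂ) → (e χ).1 1 = (n : ℂ) →
      (m : ℤ) ≡ n [ZMOD p] ∨ (m : ℤ) ≡ -n [ZMOD p]

/-- `θ` is invariant under conjugation with the elements of `P`. -/
def Invariant {p : ℕ} {G : Type} [Group G] (P : Sylow p G) (L : Subgroup G) (θ : L → ℂ) : Prop :=
  ∀ x ∈ P, ∀ l l' : L, x * l * x⁻¹ = l' → θ l' = θ l

/-- The reduced pairs `(G, P)`. -/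
structure Reduced {p : ℕ} {G : Type} [Group G] (P : Sylow p G) : Prop where
  center_cyclic : IsCyclic (Subgroup.center G)
  center_coprime : ¬ p ∣ Nat.card (Subgroup.center G)
  center_le_commutator : Subgroup.center G ≤ commutator G
  not_normal : N P ≠ ⊤
  solvable_le : ∀ L : Subgroup G, L.Normal → IsSolvable L → L ≤ Subgroup.center G
  sup_eq : ∀ L : Subgroup G, L.Normal → ¬ L ≤ Subgroup.center G → L ⊔ N P = ⊤
  unique_minimal : ∀ L M : Subgroup G, L.Normal → M.Normal → L ⊓ M ≤ Subgroup.center G →
    L ≤ Subgroup.center G ∨ M ≤ Subgroup.center G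

/-- A class of finite groups closed under isomorphisms, subgroups of index prime to `p`, quotients and
central extensions with cyclic kernel. -/
structure ClosedClass (p : ℕ) (𝒞 : ∀ (G : Type) [Group G], Prop) : Prop where
  iso : ∀ (G H : Type) [Group G] [Group H] [Finite G], Nonempty (G ≃* H) → 𝒞 G → 𝒞 H
  subgroup : ∀ (G : Type) [Group G] [Finite G] (H : Subgroup G), ¬ p ∣ H.index → 𝒞 G → 𝒞 H
  quotient : ∀ (G : Type) [Group G] [Finite G] (K : Subgroup G) [K.Normal], 𝒞 G → 𝒞 (G ⧸ K)
  extension : ∀ (G : Type) [Group G] [Finite G] (K : Subgroup G) [K.Normal],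
    K ≤ Subgroup.center G → IsCyclic K → 𝒞 (G ⧸ K) → 𝒞 G

section

open Pool.Agent.K3h3.MK Pool.Agent.K3h3.KB Pool.Agent.K3h83.IN

variable {p : ℕ} [hp : Fact p.Prime] {G : Type} [Group G] [Finite G]

theorem deg_iff {χ : G → ℂ} (h : IsIrr χ) {d : ℕ} : χ 1 = (d : ℂ) ↔ d = ndeg χ := by
  constructor
  · intro h1
    exact (ndeg_eq h1.symm).symm
  · rintro rfl
    exact (ndeg_cast h).symm

theorem cong_iff (m n : ℕ) : ((m : ℤ) ≡ n [ZMOD p] ∨ (m : ℤ) ≡ -n [ZMOD p]) ↔
    ((m : ZMod p)) ^ 2 = (n : ZMod p) ^ 2 := by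
  rw [sq_eq_sq_iff_eq_or_eq_neg, ← ZMod.intCast_eq_intCast_iff, ← ZMod.intCast_eq_intCast_iff]
  simp

theorem deg_prime_iff {χ : G → ℂ} (h1 : IsIrr χ) : (∃ d : ℕ, χ 1 = (d : ℂ) ∧ ¬ p ∣ d) ↔
    (ndeg χ : ZMod p) ≠ 0 := by
  constructor
  · rintro ⟨d, h2, h3⟩
    rw [deg_iff h1] at h2
    rw [← h2]
    exact fun h => h3 ((ZMod.natCast_eq_zero_iff _ _).mp h)
  · intro h2
    exact ⟨ndeg χ, (deg_iff h1).mpr rfl, fun h => h2 ((ZMod.natCast_eq_zero_iff _ _).mpr h)⟩

/-- the two descriptions of `Irr_{p'}(G)` -/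
def eqv (p : ℕ) [Fact p.Prime] (G : Type) [Group G] [Finite G] : IrrP p G ≃ X p G :=
  Equiv.subtypeEquivRight fun χ => by
    constructor
    · rintro ⟨h1, h2⟩
      exact ⟨h1, (deg_prime_iff h1).mp h2⟩
    · rintro ⟨h1, h2⟩
      exact ⟨h1, (deg_prime_iff h1).mpr h2⟩

theorem kap_eq_iff {H : Type} [Group H] [Finite H] (χ : X p G) (ψ : X p H) :
    kap p ψ = kap p χ ↔ ((ndeg χ.1 : ZMod p)) ^ 2 = (ndeg ψ.1 : ZMod p) ^ 2 := by
  unfold kap
  rw [Units.ext_iff]
  simp only [Units.val_pow_eq_pow_val, Units.val_mk0]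
  exact eq_comm

theorem hasBijection_iff (P : Sylow p G) :
    HasBijection P ↔ wt (cl p) G = wt (cl p) (NN P) := by
  constructor
  · rintro ⟨e, he⟩
    refine wt_of_bij p (((eqv p G).symm.trans e).trans (eqv p (NN P))) fun χ => ?_
    rw [kap_eq_iff]
    have h1 := he ((eqv p G).symm χ) (ndeg χ.1) (ndeg (e ((eqv p G).symm χ)).1)
      ((deg_iff χ.2.1).mpr rfl) ((deg_iff (e ((eqv p G).symm χ)).2.1).mpr rfl)
    rw [cong_iff] at h1
    exact h1
  · intro h
    obtain ⟨e, he⟩ := exists_bij p h
    refine ⟨((eqv p G).trans e).trans (eqv p (NN P)).symm, fun χ m n h1 h2 => ?_⟩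
    have h3 := he (eqv p G χ)
    rw [kap_eq_iff] at h3
    rw [deg_iff χ.2.1] at h1
    rw [deg_iff (((eqv p G).trans e).trans (eqv p (NN P)).symm χ).2.1] at h2
    rw [cong_iff, h1, h2]
    exact h3

theorem over_iff {L X : Type} [Group L] [Finite L] [Group X] (j : L →* X) (θ : L → ℂ)
    (χ : X → ℂ) : ∑ᶠ l : L, χ (j l) * θ l⁻¹ ≠ 0 ↔ ov j θ χ := by
  haveI := Fintype.ofFinite L
  rw [ov_iff, finsum_eq_sum_of_fintype]
  unfold Pool.Agent.Helper884.IC.B
  have h : (Nat.card L : ℂ)⁻¹ ≠ 0 := inv_ne_zero (by exact_mod_cast Nat.card_pos.ne')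
  rw [mul_ne_zero_iff]
  exact ⟨fun h1 => ⟨h, h1⟩, fun h1 => h1.2⟩

/-- the two descriptions of the characters over `θ` -/
def eqvOver (p : ℕ) [Fact p.Prime] {L X : Type} [Group L] [Finite L] [Group X] [Finite X]
    (j : L →* X) (θ : L → ℂ) : IrrOver p j θ ≃
      {χ : X → ℂ // Pool.Agent.H254R3.IN.IsIrr χ ∧ (ndeg χ : ZMod p) ≠ 0 ∧ ov j θ χ} :=
  Equiv.subtypeEquivRight fun χ => by
    constructor
    · rintro ⟨h1, h2, h3⟩
      exact ⟨h1, (deg_prime_iff h1).mp h2, (over_iff j θ χ).mp h3⟩
    · rintro ⟨h1, h2, h3⟩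
      exact ⟨h1, (deg_prime_iff h1).mpr h2, (over_iff j θ χ).mpr h3⟩

theorem hasRelative_of (P : Sylow p G) (L : Subgroup G) (θ : L → ℂ)
    (h : ∃ e : {χ : G → ℂ // Pool.Agent.H254R3.IN.IsIrr χ ∧ (ndeg χ : ZMod p) ≠ 0 ∧
        ov L.subtype θ χ} ≃
      {χ : (L ⊔ NN P : Subgroup G) → ℂ // Pool.Agent.H254R3.IN.IsIrr χ ∧ (ndeg χ : ZMod p) ≠ 0 ∧
        ov (Subgroup.inclusion (le_sup_left : L ≤ L ⊔ NN P)) θ χ},
      ∀ χ, ((ndeg χ.1 : ZMod p)) ^ 2 = (ndeg (e χ).1 : ZMod p) ^ 2) : HasRelativeBijection P L θ := by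
  obtain ⟨e, he⟩ := h
  refine ⟨((eqvOver p L.subtype θ).trans e).trans (eqvOver p _ θ).symm, fun χ m n h1 h2 => ?_⟩
  have h3 := he (eqvOver p L.subtype θ χ)
  rw [deg_iff χ.2.1] at h1
  rw [deg_iff (((eqvOver p L.subtype θ).trans e).trans (eqvOver p _ θ).symm χ).2.1] at h2
  rw [cong_iff, h1, h2]
  exact h3

theorem toCls {𝒞 : ∀ (G : Type) [Group G], Prop} (h : ClosedClass p 𝒞) :
    Pool.Agent.K3h83.PI.ClsP p 𝒞 :=
  ⟨h.iso, h.subgroup, h.quotient, h.extension⟩

theorem toReduced (P : Sylow p G) (h : Red2 P) : Reduced P :=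
  ⟨h.cyc, h.cop, h.der, h.ne, h.rad, h.sup, h.mono⟩

end

/-- Let `𝒞` be a class of finite groups closed under subgroups of index prime to `p`, quotients and
central extensions with cyclic kernel, for instance the class of all finite groups. If Q1 holds for the reduced pairs
`(G, P)` with `G` in `𝒞`, then for all `G` in `𝒞` and all Sylow `p`-subgroups `P` of `G` Q1 holds for `G` and
`P`, also in the relative form over every `P`-invariant irreducible character of a normal subgroup. -/
theorem result (p : ℕ) [Fact p.Prime] (𝒞 : ∀ (G : Type) [Group G], Prop) (h𝒞 : ClosedClass p 𝒞)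
    (hred : ∀ (G : Type) [Group G] [Finite G], 𝒞 G → ∀ P : Sylow p G, Reduced P → HasBijection P)
    (G : Type) [Group G] [Finite G] (hG : 𝒞 G) (P : Sylow p G) :
    HasBijection P ∧ ∀ L : Subgroup G, L.Normal → ∀ θ : L → ℂ, IsIrr θ → Invariant P L θ →
      HasRelativeBijection P L θ := by
  have key := Pool.Agent.K3h83.PI.reduction (p := p) (toCls h𝒞) fun G _ _ hG P hP =>
    (hasBijection_iff P).mp (hred G hG P (toReduced P hP))
  refine ⟨(hasBijection_iff P).mpr (key G hG P), fun L hL θ hθ hinv => ?_⟩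
  exact hasRelative_of P L θ (Pool.Agent.K3h83.PI.relBij Pool.Agent.K3h83.IN.a_S1
    Pool.Agent.K3h83.IN.a_S6 Pool.Agent.K3h83.IN.a_S3 Pool.Agent.K3h83.IN.a_S4
    Pool.Agent.K3h83.IN.a_S5 Pool.Agent.K3h83.IN.a_S13 (toCls h𝒞) key hG P L hL θ hθ
    fun x hx l l' h => hinv x hx l l' h)

end Pool.Agent.Results.MP_5ecade_al.SolvableRadicalReduction
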